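import Pool.Agent.H442R3.Odd.Sound3

/-!
# The disjoint odd paths problem: completeness of the reduction
-/

namespace Pool.Agent.H442R3.Odd

open Pool.Agent.NPC

variable {φ : Fm}

theorem exists_path {E : List (ℕ × ℕ)} {vs : List ℕ} (hnd : vs.Nodup) (hne : vs ≠ [])
    (hc : List.IsChain (fun u v => (u, v) ∈ E ∨ (v, u) ∈ E) vs) : ∃ es, IsPath E (vs, es) := by
  have hpos : 0 < vs.length := List.length_pos_iff.2 hne
  rw [List.isChain_iff_getElem] at hc
  have h1 : ∀ i, ∃ e, i + 1 < vs.length → Joins E e (vs.getD i 0) (vs.getD (i + 1) 0) := by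
    intro i
    by_cases hi : i + 1 < vs.length
    · have e1 : vs.getD i 0 = vs[i] := by
        rw [List.getD_eq_getElem?_getD, List.getElem?_eq_getElem (by omega), Option.getD_some]
      have e2 : vs.getD (i + 1) 0 = vs[i + 1] := by
        rw [List.getD_eq_getElem?_getD, List.getElem?_eq_getElem (by omega), Option.getD_some]
      rw [e1, e2]
      rcases hc i hi with h | h
      · obtain ⟨e, he⟩ := List.getElem?_of_mem h
        exact ⟨e, fun _ => Or.inl he⟩
      · obtain ⟨e, he⟩ := List.getElem?_of_mem h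
        exact ⟨e, fun _ => Or.inr he⟩
    · exact ⟨0, fun h => absurd h hi⟩
  choose g hg using h1
  refine ⟨(List.range (vs.length - 1)).map g, ?_, hnd, ?_⟩
  · simp; omega
  · intro i hi
    simp only [List.length_map, List.length_range] at hi
    have e1 : ((List.range (vs.length - 1)).map g).getD i 0 = g i := by
      rw [List.getD_eq_getElem?_getD, List.getElem?_map, List.getElem?_range hi]
      rfl
    rw [e1]
    exact hg i (by omega)

theorem mem_of_mem_edges {E : List (ℕ × ℕ)} {p : List ℕ × List ℕ} (h : IsPath E p) {e u v : ℕ}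
    (he : e ∈ p.2) (hj : Joins E e u v) : u ∈ p.1 ∧ v ∈ p.1 := by
  obtain ⟨i, hi, rfl⟩ := List.getElem_of_mem he
  have h1 := h.2.2 i hi
  have hl := h.1
  have e0 : p.2.getD i 0 = p.2[i] := by
    rw [List.getD_eq_getElem?_getD, List.getElem?_eq_getElem (by omega), Option.getD_some]
  have e1 : p.1.getD i 0 = p.1[i] := by
    rw [List.getD_eq_getElem?_getD, List.getElem?_eq_getElem (by omega), Option.getD_some]
  have e2 : p.1.getD (i + 1) 0 = p.1[i + 1] := by
    rw [List.getD_eq_getElem?_getD, List.getElem?_eq_getElem (by omega), Option.getD_some]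
  rw [e0, e1, e2] at h1
  have m1 : p.1[i] ∈ p.1 := List.getElem_mem _
  have m2 : p.1[i + 1] ∈ p.1 := List.getElem_mem _
  rcases h1 with h1 | h1 <;> rcases hj with h2 | h2 <;> rw [h1] at h2 <;>
    simp only [Option.some.injEq, Prod.mk.injEq] at h2 <;> obtain ⟨rfl, rfl⟩ := h2
  · exact ⟨m1, m2⟩
  · exact ⟨m2, m1⟩
  · exact ⟨m2, m1⟩
  · exact ⟨m1, m2⟩

theorem valid_red (hφ : φ ≠ []) : Valid (red φ) := by
  have hk := kk_eq φ
  have hpos : 0 < φ.length := List.length_pos_iff.2 hφ
  refine ⟨List.nodup_range, ?_, ?_, ⟨?_, by simp [red], ?_⟩, ?_, by simp [red], ?_⟩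
  · rintro ⟨u, v⟩ he
    change (u, v) ∈ edges φ at he
    change u ∈ List.range (9 * kk φ) ∧ v ∈ List.range (9 * kk φ)
    rw [List.mem_range, List.mem_range]
    rw [mem_edges] at he
    obtain ⟨i, hi, h⟩ := he
    have hn := nxt_lt φ hi
    rcases h with h | h | h | h | h | ⟨b, hb, h | ⟨_, h | h⟩⟩ <;> omega
  · change 0 < kk φ
    omega
  · exact List.Nodup.map (fun a b h => by simpa using h) List.nodup_range
  · intro x hx
    change x ∈ List.map (fun i => 9 * i) (List.range (kk φ)) at hx
    change x ∈ List.range (9 * kk φ)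
    simp only [List.mem_map, List.mem_range] at hx ⊢
    obtain ⟨a, ha, rfl⟩ := hx
    omega
  · exact List.Nodup.map (fun a b h => by simpa using h) List.nodup_range
  · intro x hx
    change x ∈ List.map (fun i => 9 * i + 5) (List.range (kk φ)) at hx
    change x ∈ List.range (9 * kk φ)
    simp only [List.mem_map, List.mem_range] at hx ⊢
    obtain ⟨a, ha, rfl⟩ := hx
    omega

/-- The vertices of the path starting at `9 * a`. -/
def vsOf (a f b q : ℕ) (β : Bool) : List ℕ :=
  if β = true then [9 * a, 9 * a + 1, 9 * a + 3, 9 * f + 2, 9 * q + 4, 9 * q + 5]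
  else [9 * a, 9 * a + 1, 9 * a + 2, 9 * a + 6 + b, 9 * q + 4, 9 * q + 5]

theorem complete (hφ : φ ≠ []) (h : SAT3 φ) : OddPaths (red φ) := by
  refine ⟨valid_red hφ, ?_⟩
  obtain ⟨τ, hτ⟩ := h
  have hk := kk_eq φ
  -- a true literal in every clause
  have hi0 : ∀ c, ∃ r, r < 3 ∧ (c < φ.length → τ (wv φ (3 * c + r)) = wp φ (3 * c + r)) := by
    intro c
    by_cases hc : c < φ.length
    · have h1 := hτ _ (List.getElem_mem hc)
      have h2 := lits_getD φ c hc φ[c]
      have h3 : φ.getD c φ[c] = φ[c] := by
        rw [List.getD_eq_getElem?_getD, List.getElem?_eq_getElem hc, Option.getD_some]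
      rw [h3] at h2
      rcases h1 with h1 | h1 | h1
      · exact ⟨0, by omega, fun _ => by rw [wv_eq, wp_eq, Nat.add_zero, h2.1]; exact h1⟩
      · exact ⟨1, by omega, fun _ => by rw [wv_eq, wp_eq, h2.2.1]; exact h1⟩
      · exact ⟨2, by omega, fun _ => by rw [wv_eq, wp_eq, h2.2.2]; exact h1⟩
    · exact ⟨0, by omega, fun h => absurd h hc⟩
  choose i0 hi3 hi0 using hi0
  let β : ℕ → Bool := fun a => τ (wv φ a)
  let f : ℕ → ℕ := fun a => if β a = true then nxt φ a else a
  let b : ℕ → ℕ := fun a => if f a % 3 = i0 (f a / 3) then 2 else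
    if f a % 3 = 2 then i0 (f a / 3) else f a % 3
  let q : ℕ → ℕ := fun a => 3 * (f a / 3) + b a
  have hfk : ∀ a < kk φ, f a < kk φ := by
    intro a ha
    simp only [f]
    split_ifs
    · exact nxt_lt φ ha
    · exact ha
  have hfv : ∀ a < kk φ, wv φ (f a) = wv φ a := by
    intro a ha
    simp only [f]
    split_ifs
    · exact wv_nxt φ ha
    · rfl
  have hfinj : ∀ a < kk φ, ∀ a' < kk φ, f a = f a' → a = a' := by
    intro a ha a' ha' h
    have h1 : wv φ a = wv φ a' := by rw [← hfv a ha, ← hfv a' ha', h]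
    have h2 : β a = β a' := by simp only [β]; rw [h1]
    simp only [f] at h
    rw [h2] at h
    split_ifs at h
    · exact nxt_inj φ ha ha' h
    · exact h
  have hb3 : ∀ a, b a < 3 := by
    intro a
    have := hi3 (f a / 3)
    simp only [b]
    split_ifs <;> omega
  have hqk : ∀ a < kk φ, q a < kk φ := by
    intro a ha
    have h1 := hfk a ha
    have h2 := hb3 a
    simp only [q]
    omega
  have hqinj : ∀ a < kk φ, ∀ a' < kk φ, q a = q a' → a = a' := by
    intro a ha a' ha' h
    apply hfinj a ha a' ha'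
    have h2 := hb3 a
    have h3 := hb3 a'
    simp only [q] at h
    have h4 : f a / 3 = f a' / 3 := by omega
    have h5 : b a = b a' := by omega
    have h6 := hi3 (f a / 3)
    simp only [b] at h5
    rw [← h4] at h5
    split_ifs at h5 <;> omega
  have hb2 : ∀ a < kk φ, b a < 2 ∨ wp φ (f a) = β a := by
    intro a ha
    by_cases h1 : f a % 3 = i0 (f a / 3)
    · right
      have h2 := hi0 (f a / 3) (by have := hfk a ha; omega)
      rw [← h1, Nat.div_add_mod] at h2
      rw [← h2, hfv a ha]
    · left
      have h2 := hi3 (f a / 3)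
      simp only [b]
      split_ifs <;> omega
  -- the paths
  have hpath : ∀ a, ∃ es, a < kk φ → IsPath (edges φ) (vsOf a (f a) (b a) (q a) (β a), es) := by
    intro a
    by_cases ha : a < kk φ
    · have h1 := hb3 a
      have h2 : ∃ es, IsPath (edges φ) (vsOf a (f a) (b a) (q a) (β a), es) := by
        apply exists_path
        · unfold vsOf
          split_ifs
          · simp only [List.nodup_cons, List.mem_cons, List.not_mem_nil, or_false, not_or,
              List.nodup_nil, and_true, not_false_eq_true]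
            omega
          · simp only [List.nodup_cons, List.mem_cons, List.not_mem_nil, or_false, not_or,
              List.nodup_nil, and_true, not_false_eq_true]
            omega
        · unfold vsOf
          split_ifs <;> simp
        · have h3 := hb2 a ha
          have hfk' := hfk a ha
          unfold vsOf
          split_ifs with hβ
          · simp only [List.isChain_cons_cons, List.isChain_singleton, and_true]
            have hf : f a = nxt φ a := by simp only [f, hβ, if_true]
            rw [hβ] at h3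
            refine ⟨Or.inl ?_, Or.inl ?_, Or.inl ?_, Or.inl ?_, Or.inl ?_⟩ <;> rw [mem_edges]
            · exact ⟨a, ha, Or.inl ⟨rfl, rfl⟩⟩
            · exact ⟨a, ha, Or.inr (Or.inr (Or.inl ⟨rfl, rfl⟩))⟩
            · exact ⟨a, ha, Or.inr (Or.inr (Or.inr (Or.inl ⟨rfl, by rw [hf]⟩)))⟩
            · exact ⟨f a, hfk', Or.inr (Or.inr (Or.inr (Or.inr (Or.inr ⟨b a, h1,
                Or.inl ⟨h3, rfl, rfl⟩⟩))))⟩
            · exact ⟨q a, hqk a ha, Or.inr (Or.inr (Or.inr (Or.inr (Or.inl ⟨rfl, rfl⟩))))⟩
          · simp only [List.isChain_cons_cons, List.isChain_singleton, and_true]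
            have hβ' : β a = false := by simpa using hβ
            have hf : f a = a := by simp only [f, hβ']; simp
            have hq : q a = 3 * (a / 3) + b a := by simp only [q]; rw [hf]
            rw [hβ', hf] at h3
            refine ⟨Or.inl ?_, Or.inl ?_, Or.inl ?_, Or.inl ?_, Or.inl ?_⟩ <;> rw [mem_edges]
            · exact ⟨a, ha, Or.inl ⟨rfl, rfl⟩⟩
            · exact ⟨a, ha, Or.inr (Or.inl ⟨rfl, rfl⟩)⟩
            · exact ⟨a, ha, Or.inr (Or.inr (Or.inr (Or.inr (Or.inr ⟨b a, h1,
                Or.inr ⟨h3, Or.inl ⟨rfl, rfl⟩⟩⟩))))⟩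
            · exact ⟨a, ha, Or.inr (Or.inr (Or.inr (Or.inr (Or.inr ⟨b a, h1,
                Or.inr ⟨h3, Or.inr ⟨rfl, by rw [hq]⟩⟩⟩))))⟩
            · exact ⟨q a, hqk a ha, Or.inr (Or.inr (Or.inr (Or.inr (Or.inl ⟨rfl, rfl⟩))))⟩
      obtain ⟨es, hes⟩ := h2
      exact ⟨es, fun _ => hes⟩
    · exact ⟨[], fun h => absurd h ha⟩
  choose es hes using hpath
  have hlen : ∀ a, (vsOf a (f a) (b a) (q a) (β a)).length = 6 := by
    intro a
    unfold vsOf
    split_ifs <;> rfl
  have hmem : ∀ a v, v ∈ vsOf a (f a) (b a) (q a) (β a) → v = 9 * a ∨ v = 9 * q a + 5 ∨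
      v = 9 * a + 1 ∨ v = 9 * a + 3 ∨ v = 9 * f a + 2 ∨ v = 9 * q a + 4 ∨ v = 9 * a + 6 + b a := by
    intro a v hv
    unfold vsOf at hv
    split_ifs at hv with hβ
    · simp only [List.mem_cons, List.not_mem_nil, or_false] at hv
      omega
    · have hβ' : β a = false := by simpa using hβ
      have hf : f a = a := by simp only [f, hβ']; simp
      simp only [List.mem_cons, List.not_mem_nil, or_false] at hv
      rw [hf]
      omega
  have hinn : ∀ a v, v ∈ inner (vsOf a (f a) (b a) (q a) (β a), es a) →
      v = 9 * a + 1 ∨ v = 9 * a + 3 ∨ v = 9 * f a + 2 ∨ v = 9 * q a + 4 ∨ v = 9 * a + 6 + b a := by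
    intro a v hv
    unfold inner vsOf at hv
    split_ifs at hv with hβ
    · simp only [List.tail_cons, List.dropLast, List.mem_cons, List.not_mem_nil, or_false] at hv
      omega
    · have hβ' : β a = false := by simpa using hβ
      have hf : f a = a := by simp only [f, hβ']; simp
      simp only [List.tail_cons, List.dropLast, List.mem_cons, List.not_mem_nil, or_false] at hv
      rw [hf]
      omega
  refine ⟨(List.range (kk φ)).map (fun a => (vsOf a (f a) (b a) (q a) (β a), es a)), by simp [red],
    ?_, ?_⟩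
  · intro p hp
    rw [List.mem_map] at hp
    obtain ⟨a, ha, rfl⟩ := hp
    rw [List.mem_range] at ha
    refine ⟨⟨hes a ha, ⟨9 * a, ?_, ?_⟩, ⟨9 * q a + 5, ?_, ?_⟩, ?_⟩, ?_⟩
    · exact List.mem_map.2 ⟨a, List.mem_range.2 ha, rfl⟩
    · simp only
      unfold vsOf
      split_ifs <;> rfl
    · exact List.mem_map.2 ⟨q a, List.mem_range.2 (hqk a ha), rfl⟩
    · simp only
      unfold vsOf
      split_ifs <;> rfl
    · intro v hv
      have h1 := hinn a v hv
      have h2 := hb3 a
      constructor
      · intro h3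
        obtain ⟨x, _, hx⟩ := List.mem_map.1 h3
        omega
      · intro h3
        obtain ⟨x, _, hx⟩ := List.mem_map.1 h3
        omega
    · have h1 := (hes a ha).1
      have h2 := hlen a
      simp only at h1 ⊢
      omega
  · rw [List.pairwise_iff_getElem]
    intro i j hi hj hij
    simp only [List.length_map, List.length_range] at hi hj
    simp only [List.getElem_map, List.getElem_range]
    have h3 := hb3 i
    have h4 := hb3 j
    refine ⟨fun hall => ?_, fun v hv hv' => ?_⟩
    · -- the first edge
      have h1 := (hes i hi).2.2 0 (by have := (hes i hi).1; have := hlen i; simp only at *; omega)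
      have h2 : (es i).getD 0 0 ∈ es i := by
        have h5 : 0 < (es i).length := by
          have := (hes i hi).1; have := hlen i; simp only at *; omega
        rw [List.getD_eq_getElem?_getD, List.getElem?_eq_getElem h5, Option.getD_some]
        exact List.getElem_mem _
      have h5 := mem_of_mem_edges (hes j hj) ((hall _).1 h2) h1
      have h6 : (vsOf i (f i) (b i) (q i) (β i)).getD (0 + 1) 0 = 9 * i + 1 := by
        unfold vsOf
        split_ifs <;> rfl
      simp only [h6] at h5
      have h7 := hmem j _ h5.2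
      omega
    · have h1 := hinn i v hv
      have h2 := hinn j v hv'
      have h5 : f i ≠ f j := fun h => by have := hfinj i hi j hj h; omega
      have h6 : q i ≠ q j := fun h => by have := hqinj i hi j hj h; omega
      omega

theorem red_correct (hφ : φ ≠ []) : SAT3 φ ↔ OddPaths (red φ) := ⟨complete hφ, sound⟩

end Pool.Agent.H442R3.Odd
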