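import Pool.Agent.NPC.Defs

/-!
# The disjoint odd paths problem: definitions
-/

namespace Pool.Agent.H442R3.Odd

open Pool.Agent.NPC

/-- The edge number `e` of the graph with the list `E` of edges joins `u` and `v`.  The edges are
given by their two ends; loops and parallel edges are allowed. -/
def Joins (E : List (ℕ × ℕ)) (e u v : ℕ) : Prop := E[e]? = some (u, v) ∨ E[e]? = some (v, u)

/-- `p.1` is the sequence of the vertices and `p.2` is the sequence of the (numbers of the) edges of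
a path: no vertex is repeated, and the `i`-th edge joins the `i`-th vertex to the next one. -/
def IsPath (E : List (ℕ × ℕ)) (p : List ℕ × List ℕ) : Prop :=
  p.1.length = p.2.length + 1 ∧ p.1.Nodup ∧
    ∀ i < p.2.length, Joins E (p.2.getD i 0) (p.1.getD i 0) (p.1.getD (i + 1) 0)

/-- The internal vertices of a path: all vertices but the first and the last. -/
def inner (p : List ℕ × List ℕ) : List ℕ := p.1.tail.dropLast

/-- An `(X, Y)`-path: the first vertex is in `X`, the last one is in `Y`, and no internal vertex is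
in `X` or in `Y`. -/
def IsXYPath (E : List (ℕ × ℕ)) (X Y : List ℕ) (p : List ℕ × List ℕ) : Prop :=
  IsPath E p ∧ (∃ x ∈ X, p.1.head? = some x) ∧ (∃ y ∈ Y, p.1.getLast? = some y) ∧
    ∀ v ∈ inner p, v ∉ X ∧ v ∉ Y

/-- Two paths are different (they have different sets of edges) and internally disjoint. -/
def Separate (p q : List ℕ × List ℕ) : Prop :=
  (¬ ∀ e, e ∈ p.2 ↔ e ∈ q.2) ∧ ∀ v ∈ inner p, v ∉ inner q

/-- An instance: the vertices, the edges, the number `k` and the sets `X`, `Y`. -/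
abbrev Inst : Type := List ℕ × List (ℕ × ℕ) × ℕ × List ℕ × List ℕ

/-- The instance `(V, E, k, X, Y)` is well formed: the vertices are listed once, the edges have
their ends in `V`, and `X` and `Y` are `k`-element subsets of `V`, where `k > 0`. -/
def Valid (I : Inst) : Prop :=
  I.1.Nodup ∧ (∀ e ∈ I.2.1, e.1 ∈ I.1 ∧ e.2 ∈ I.1) ∧ 0 < I.2.2.1 ∧
    (I.2.2.2.1.Nodup ∧ I.2.2.2.1.length = I.2.2.1 ∧ ∀ x ∈ I.2.2.2.1, x ∈ I.1) ∧
    (I.2.2.2.2.Nodup ∧ I.2.2.2.2.length = I.2.2.1 ∧ ∀ y ∈ I.2.2.2.2, y ∈ I.1)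

/-- ODD-PATHS: there are `k` different, pairwise internally disjoint `(X, Y)`-paths of odd
length. -/
def OddPaths (I : Inst) : Prop :=
  Valid I ∧ ∃ Ps : List (List ℕ × List ℕ), Ps.length = I.2.2.1 ∧
    (∀ p ∈ Ps, IsXYPath I.2.1 I.2.2.2.1 I.2.2.2.2 p ∧ p.2.length % 2 = 1) ∧ Ps.Pairwise Separate

end Pool.Agent.H442R3.Odd
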