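import Pool.Agent.H442R3.Odd.PolyRed
import Pool.Agent.H622R2.CoNP

/-!
# The disjoint odd paths problem is in `NP`
-/

namespace Pool.Agent.H442R3.Odd

open Pool.Agent.NPC

/-- Boolean test for `List.Pairwise`. -/
def pairB {β : Type} (r : β → β → Bool) (l : List β) : Bool :=
  l.zipIdx.all (fun p => l.zipIdx.all (fun q => !(decide (p.2 < q.2)) || r p.1 q.1))

theorem pairB_iff {β : Type} {r : β → β → Bool} {R : β → β → Prop}
    (h : ∀ a b, r a b = true ↔ R a b) (l : List β) : pairB r l = true ↔ l.Pairwise R := by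
  unfold pairB
  rw [List.pairwise_iff_getElem, List.all_eq_true]
  constructor
  · intro hall i j hi hj hij
    have h1 := hall (l[i], i) (by
      rw [List.mem_zipIdx_iff_getElem?]; exact List.getElem?_eq_getElem hi)
    rw [List.all_eq_true] at h1
    have h2 := h1 (l[j], j) (by
      rw [List.mem_zipIdx_iff_getElem?]; exact List.getElem?_eq_getElem hj)
    simp only [hij, decide_true, Bool.not_true, Bool.false_or] at h2
    exact (h _ _).1 h2
  · rintro hall ⟨a, i⟩ ha
    rw [List.all_eq_true]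
    rintro ⟨b, j⟩ hb
    rw [List.mem_zipIdx_iff_getElem?] at ha hb
    simp only at ha hb ⊢
    by_cases hij : i < j
    · obtain ⟨hi, rfl⟩ := List.getElem?_eq_some_iff.1 ha
      obtain ⟨hj, rfl⟩ := List.getElem?_eq_some_iff.1 hb
      simp [hij, (h _ _).2 (hall i j hi hj hij)]
    · simp [hij]

theorem poly_pairB {α β : Type} [TEnc α] [TEnc β] {l : α → List β} {r : α → β → β → Bool}
    (hl : Poly l) (hr : Poly (fun p : α × β × β => r p.1 p.2.1 p.2.2)) :
    Poly (fun a => pairB (r a) (l a)) := by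
  unfold pairB
  have h1 : Poly (fun x : (α × (β × ℕ)) × (β × ℕ) => r x.1.1 x.1.2.1 x.2.1) :=
    hr.comp (f := fun x : (α × (β × ℕ)) × (β × ℕ) => (x.1.1, x.1.2.1, x.2.1)) (by fun_prop)
  fun_prop

/-- Boolean version of `Joins`. -/
def joinsB (E : List (ℕ × ℕ)) (e u v : ℕ) : Bool :=
  decide (E[e]? = some (u, v)) || decide (E[e]? = some (v, u))

theorem joinsB_iff {E : List (ℕ × ℕ)} {e u v : ℕ} : joinsB E e u v = true ↔ Joins E e u v := by
  simp [joinsB, Joins]

/-- Boolean version of `IsPath`. -/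
def isPathB (E : List (ℕ × ℕ)) (p : List ℕ × List ℕ) : Bool :=
  decide (p.1.length = p.2.length + 1) && pairB (fun a b => !(decide (a = b))) p.1 &&
    (List.range p.2.length).all (fun i =>
      joinsB E (p.2.getD i 0) (p.1.getD i 0) (p.1.getD (i + 1) 0))

theorem isPathB_iff {E : List (ℕ × ℕ)} {p : List ℕ × List ℕ} :
    isPathB E p = true ↔ IsPath E p := by
  unfold isPathB IsPath
  rw [Bool.and_eq_true, Bool.and_eq_true, decide_eq_true_eq, pairB_iff (R := fun a b => a ≠ b)
    (fun a b => by simp), List.all_eq_true, and_assoc]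
  refine and_congr_right fun _ => and_congr_right fun _ => ?_
  simp only [List.mem_range, joinsB_iff]

/-- Boolean version of `inner`. -/
def innerB (p : List ℕ × List ℕ) : List ℕ := p.1.tail.reverse.tail.reverse

theorem innerB_eq (p : List ℕ × List ℕ) : innerB p = inner p := by
  unfold innerB inner
  rw [List.tail_reverse, List.reverse_reverse]

/-- Boolean version of the conditions for a path in a solution. -/
def xyB (I : Inst) (p : List ℕ × List ℕ) : Bool :=
  isPathB I.2.1 p && (I.2.2.2.1.any (fun x => decide (p.1.head? = some x)) &&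
    (I.2.2.2.2.any (fun y => decide (p.1.reverse.head? = some y)) &&
      (innerB p).all (fun v => !(decide (v ∈ I.2.2.2.1)) && !(decide (v ∈ I.2.2.2.2))))) &&
    decide (p.2.length % 2 = 1)

theorem xyB_iff {I : Inst} {p : List ℕ × List ℕ} :
    xyB I p = true ↔ IsXYPath I.2.1 I.2.2.2.1 I.2.2.2.2 p ∧ p.2.length % 2 = 1 := by
  unfold xyB IsXYPath
  rw [Bool.and_eq_true, Bool.and_eq_true, Bool.and_eq_true, Bool.and_eq_true, isPathB_iff,
    decide_eq_true_eq, innerB_eq]
  simp only [List.any_eq_true, decide_eq_true_eq, List.all_eq_true, Bool.and_eq_true,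
    Bool.not_eq_true', decide_eq_false_iff_not, List.head?_reverse]

/-- Boolean version of `Separate`. -/
def sepB (p q : List ℕ × List ℕ) : Bool :=
  !(p.2.all (fun e => decide (e ∈ q.2)) && q.2.all (fun e => decide (e ∈ p.2))) &&
    (innerB p).all (fun v => !(decide (v ∈ innerB q)))

theorem sepB_iff {p q : List ℕ × List ℕ} : sepB p q = true ↔ Separate p q := by
  unfold sepB Separate
  rw [Bool.and_eq_true, innerB_eq, innerB_eq]
  refine and_congr ?_ ?_
  · rw [Bool.not_eq_true', Bool.and_eq_false_iff, ← not_iff_not]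
    simp only [not_or, Bool.not_eq_false, List.all_eq_true, decide_eq_true_eq, not_not]
    constructor
    · rintro ⟨h1, h2⟩ e
      exact ⟨h1 e, h2 e⟩
    · intro h
      exact ⟨fun e he => (h e).1 he, fun e he => (h e).2 he⟩
  · simp

/-- Boolean version of `Valid`. -/
def validB (I : Inst) : Bool :=
  pairB (fun a b => !(decide (a = b))) I.1 &&
  (I.2.1.all (fun e => decide (e.1 ∈ I.1) && decide (e.2 ∈ I.1)) && (decide (0 < I.2.2.1) &&
  ((pairB (fun a b => !(decide (a = b))) I.2.2.2.1 && (decide (I.2.2.2.1.length = I.2.2.1) &&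
    I.2.2.2.1.all (fun x => decide (x ∈ I.1)))) &&
  (pairB (fun a b => !(decide (a = b))) I.2.2.2.2 && (decide (I.2.2.2.2.length = I.2.2.1) &&
    I.2.2.2.2.all (fun x => decide (x ∈ I.1)))))))

theorem validB_iff {I : Inst} : validB I = true ↔ Valid I := by
  unfold validB Valid
  have h : ∀ l : List ℕ, pairB (fun a b => !(decide (a = b))) l = true ↔ l.Nodup :=
    fun l => pairB_iff (fun a b => by simp) l
  simp only [Bool.and_eq_true, h, List.all_eq_true, decide_eq_true_eq]

/-- The verifier. -/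
def verify (x : Inst × List (List ℕ × List ℕ)) : Bool :=
  validB x.1 && (decide (x.2.length = x.1.2.2.1) && (x.2.all (fun p => xyB x.1 p) &&
    pairB (fun p q => sepB p q) x.2))

theorem verify_iff {I : Inst} {Ps : List (List ℕ × List ℕ)} :
    verify (I, Ps) = true ↔ Valid I ∧ Ps.length = I.2.2.1 ∧
      (∀ p ∈ Ps, IsXYPath I.2.1 I.2.2.2.1 I.2.2.2.2 p ∧ p.2.length % 2 = 1) ∧
        Ps.Pairwise Separate := by
  unfold verify
  rw [Bool.and_eq_true, Bool.and_eq_true, Bool.and_eq_true, validB_iff, decide_eq_true_eq,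
    pairB_iff (fun p q => sepB_iff), List.all_eq_true]
  simp only [xyB_iff]

@[fun_prop]
theorem poly_range_length {α β : Type} [TEnc α] [TEnc β] {l : α → List β} (hl : Poly l) :
    Poly (fun a => List.range (l a).length) := Poly.range_length hl

@[fun_prop]
theorem poly_innerB {α : Type} [TEnc α] {p : α → List ℕ × List ℕ} (hp : Poly p) :
    Poly (fun a => innerB (p a)) := by
  unfold innerB
  fun_prop

theorem poly_ne {α : Type} [TEnc α] {l : α → List ℕ} (hl : Poly l) :
    Poly (fun a => pairB (fun a b => !(decide (a = b))) (l a)) :=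
  poly_pairB (r := fun _ a b => !(decide (a = b))) hl (by fun_prop)

@[fun_prop]
theorem poly_sepB {α : Type} [TEnc α] {p q : α → List ℕ × List ℕ} (hp : Poly p) (hq : Poly q) :
    Poly (fun a => sepB (p a) (q a)) := by
  unfold sepB
  fun_prop

@[fun_prop]
theorem poly_joinsB {α : Type} [TEnc α] {E : α → List (ℕ × ℕ)} {e u v : α → ℕ} (hE : Poly E)
    (he : Poly e) (hu : Poly u) (hv : Poly v) : Poly (fun a => joinsB (E a) (e a) (u a) (v a)) := by
  unfold joinsB
  fun_prop

@[fun_prop]
theorem poly_isPathB {α : Type} [TEnc α] {E : α → List (ℕ × ℕ)} {p : α → List ℕ × List ℕ}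
    (hE : Poly E) (hp : Poly p) : Poly (fun a => isPathB (E a) (p a)) := by
  unfold isPathB
  have h1 : Poly (fun a => pairB (fun a b => !(decide (a = b))) (p a).1) :=
    poly_ne (Poly.fst hp)
  fun_prop

@[fun_prop]
theorem poly_xyB {α : Type} [TEnc α] {I : α → Inst} {p : α → List ℕ × List ℕ}
    (hI : Poly I) (hp : Poly p) : Poly (fun a => xyB (I a) (p a)) := by
  unfold xyB
  fun_prop

theorem poly_validB : Poly validB := by
  unfold validB
  have h1 : Poly (fun I : Inst => pairB (fun a b => !(decide (a = b))) I.1) :=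
    poly_ne (by fun_prop)
  have h2 : Poly (fun I : Inst => pairB (fun a b => !(decide (a = b))) I.2.2.2.1) :=
    poly_ne (by fun_prop)
  have h3 : Poly (fun I : Inst => pairB (fun a b => !(decide (a = b))) I.2.2.2.2) :=
    poly_ne (by fun_prop)
  fun_prop

theorem poly_verify : Poly verify := by
  unfold verify
  have h1 : Poly (fun x : Inst × List (List ℕ × List ℕ) => validB x.1) :=
    poly_validB.comp (by fun_prop)
  have h2 : Poly (fun x : Inst × List (List ℕ × List ℕ) => pairB (fun p q => sepB p q) x.2) :=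
    poly_pairB (r := fun _ p q => sepB p q) (by fun_prop) (by fun_prop)
  fun_prop

theorem mem_of_path {V : List ℕ} {E : List (ℕ × ℕ)} (hE : ∀ e ∈ E, e.1 ∈ V ∧ e.2 ∈ V)
    {p : List ℕ × List ℕ} (hp : IsPath E p) (hodd : p.2.length % 2 = 1) :
    (∀ v ∈ p.1, v ∈ V) ∧ ∀ e ∈ p.2, e < E.length := by
  have hl := hp.1
  have key : ∀ i < p.2.length, p.2.getD i 0 < E.length ∧ p.1.getD i 0 ∈ V ∧
      p.1.getD (i + 1) 0 ∈ V := by
    intro i hi
    rcases hp.2.2 i hi with h | h
    · have h1 := hE _ (List.mem_of_getElem? h)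
      exact ⟨(List.getElem?_eq_some_iff.1 h).1, h1.1, h1.2⟩
    · have h1 := hE _ (List.mem_of_getElem? h)
      exact ⟨(List.getElem?_eq_some_iff.1 h).1, h1.2, h1.1⟩
  constructor
  · intro v hv
    obtain ⟨i, hi, rfl⟩ := List.getElem_of_mem hv
    have e1 : ∀ j (hj : j < p.1.length), p.1.getD j 0 = p.1[j] := by
      intro j hj
      rw [List.getD_eq_getElem?_getD, List.getElem?_eq_getElem hj, Option.getD_some]
    rcases Nat.lt_or_ge i p.2.length with h | h
    · rw [← e1 i hi]
      exact (key i h).2.1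
    · have h2 : i = (p.2.length - 1) + 1 := by omega
      have h3 := (key (p.2.length - 1) (by omega)).2.2
      rw [← h2, e1 i hi] at h3
      exact h3
  · intro e he
    obtain ⟨i, hi, rfl⟩ := List.getElem_of_mem he
    have e1 : p.2.getD i 0 = p.2[i] := by
      rw [List.getD_eq_getElem?_getD, List.getElem?_eq_getElem hi, Option.getD_some]
    rw [← e1]
    exact (key i hi).1

theorem sz_cert {I : Inst} {Ps : List (List ℕ × List ℕ)} (hv : Valid I)
    (hlen : Ps.length = I.2.2.1)
    (hP : ∀ p ∈ Ps, IsXYPath I.2.1 I.2.2.2.1 I.2.2.2.2 p ∧ p.2.length % 2 = 1) :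
    sz Ps ≤ 20 * (sz I + 1) ^ 3 := by
  obtain ⟨V, E, k, X, Y⟩ := I
  obtain ⟨h1, h2, h3, ⟨h4, h5, h6⟩, -⟩ := hv
  simp only at h1 h2 h3 h4 h5 h6 hlen hP
  set s := sz (V, E, k, X, Y) with hs
  have hsV : sz V ≤ s := by simp only [hs, sz_pair]; omega
  have hsE : sz E ≤ s := by simp only [hs, sz_pair]; omega
  have hsX : sz X ≤ s := by simp only [hs, sz_pair]; omega
  have hp : ∀ p ∈ Ps, sz p ≤ 9 * (s + 1) ^ 2 := by
    intro p hp
    obtain ⟨⟨hpath, -⟩, hodd⟩ := hP p hp
    obtain ⟨m1, m2⟩ := mem_of_path h2 hpath hodd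
    have hl := hpath.1
    have l1 : p.1.length ≤ V.length := (hpath.2.1.subperm m1).length_le
    have l2 := length_lt_sz V
    have l3 := length_lt_sz E
    have b1 := sz_le_length_mul p.1 s (fun v hv => by
      have := sz_le_of_mem (m1 v hv)
      omega)
    have b2 := sz_le_length_mul p.2 (4 * s + 1) (fun e he => by
      have h7 := m2 e he
      have h8 := sz_nat_le e
      have h9 : e.size ≤ e := Nat.size_le.2 Nat.lt_two_pow_self
      omega)
    have b3 : p.1.length * (s + 1) ≤ s * (s + 1) := Nat.mul_le_mul_right _ (by omega)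
    have b4 : p.2.length * (4 * s + 1 + 1) ≤ s * (4 * s + 1 + 1) :=
      Nat.mul_le_mul_right _ (by omega)
    have b5 : sz p = sz p.1 + sz p.2 + 1 := by
      obtain ⟨p1, p2⟩ := p
      simp only [sz_pair]
    nlinarith
  have h7 := sz_le_length_mul Ps (9 * (s + 1) ^ 2) hp
  have h8 := length_lt_sz X
  have h9 : Ps.length * (9 * (s + 1) ^ 2 + 1) ≤ s * (9 * (s + 1) ^ 2 + 1) :=
    Nat.mul_le_mul_right _ (by omega)
  nlinarith

/-- ODD-PATHS is in `NP`. -/
theorem inNPP_oddPaths : InNPP OddPaths := by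
  refine inNPP_of (R := verify) poly_verify
    (Polynomial.C 20 * (Polynomial.X + Polynomial.C 1) ^ 3) fun I => ?_
  constructor
  · rintro ⟨hv, Ps, h1, h2, h3⟩
    refine ⟨Ps, ?_, verify_iff.2 ⟨hv, h1, h2, h3⟩⟩
    simpa using sz_cert hv h1 h2
  · rintro ⟨Ps, -, h⟩
    rw [verify_iff] at h
    exact ⟨h.1, Ps, h.2.1, h.2.2.1, h.2.2.2⟩

end Pool.Agent.H442R3.Odd
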