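import Pool.Agent.H442R3.Odd.Compl
import Pool.Agent.H671R2.PolyAuto
import Pool.Agent.NPC.Sat2

/-!
# The disjoint odd paths problem: the reduction is computed in polynomial time
-/

namespace Pool.Agent.H442R3.Odd

open Pool.Agent.NPC

theorem poly_lits : Poly lits := by
  unfold lits
  fun_prop

theorem uPoly_kk : UPoly kk := UPoly.length poly_lits

@[fun_prop]
theorem poly_lits' {α : Type} [TEnc α] {φ : α → Fm} (hφ : Poly φ) : Poly (fun a => lits (φ a)) :=
  poly_lits.comp hφ

@[fun_prop]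
theorem poly_kk {α : Type} [TEnc α] {φ : α → Fm} (hφ : Poly φ) : Poly (fun a => kk (φ a)) :=
  Poly.length (poly_lits.comp hφ)

@[fun_prop]
theorem poly_range_kk {α : Type} [TEnc α] {φ : α → Fm} (hφ : Poly φ) :
    Poly (fun a => List.range (kk (φ a))) := UPoly.range (uPoly_kk.comp hφ)

@[fun_prop]
theorem poly_wv {α : Type} [TEnc α] {φ : α → Fm} {i : α → ℕ} (hφ : Poly φ) (hi : Poly i) :
    Poly (fun a => wv (φ a) (i a)) := by
  unfold wv
  fun_prop

@[fun_prop]
theorem poly_wp {α : Type} [TEnc α] {φ : α → Fm} {i : α → ℕ} (hφ : Poly φ) (hi : Poly i) :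
    Poly (fun a => wp (φ a) (i a)) := by
  unfold wp
  fun_prop

@[fun_prop]
theorem poly_nxt {α : Type} [TEnc α] {φ : α → Fm} {i : α → ℕ} (hφ : Poly φ) (hi : Poly i) :
    Poly (fun a => nxt (φ a) (i a)) := by
  unfold nxt
  fun_prop

@[fun_prop]
theorem poly_wireEdges {α : Type} [TEnc α] {φ : α → Fm} {i : α → ℕ} (hφ : Poly φ) (hi : Poly i) :
    Poly (fun a => wireEdges (φ a) (i a)) := by
  unfold wireEdges
  have h3 : List.range 3 = [0, 1, 2] := rfl
  rw [h3]
  fun_prop

theorem poly_edges : Poly edges := by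
  unfold edges
  fun_prop

theorem poly_red : Poly red := by
  have h1 : Poly (fun φ : Fm => List.range (9 * kk φ)) :=
    UPoly.range ((UPoly.const 9).mul uPoly_kk)
  have h2 := poly_edges
  have h3 : Poly (fun φ : Fm => (List.range (kk φ)).map (fun i => 9 * i)) := by fun_prop
  have h4 : Poly (fun φ : Fm => (List.range (kk φ)).map (fun i => 9 * i + 5)) := by fun_prop
  have h5 : Poly kk := uPoly_kk.toPoly
  exact Poly.pair h1 (Poly.pair h2 (Poly.pair h5 (Poly.pair h3 h4)))

theorem npHard_oddPaths : NPHardP OddPaths :=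
  (hardPr_SAT3b.trans (Pr' := fun _ => True) (Q := OddPaths) (f := red) poly_red
    (fun _ _ => trivial) (fun _ h => red_correct h.2.2)).toHardI.toNPHardP

end Pool.Agent.H442R3.Odd
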