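import Pool.Agent.H442R3.Odd.Defs
import Pool.Agent.NPC.Sat

/-!
# The disjoint odd paths problem: the reduction from 3SAT
-/

namespace Pool.Agent.H442R3.Odd

open Pool.Agent.NPC

/-- Formulas in 3CNF. -/
abbrev Fm : Type := List (Lit ℕ × Lit ℕ × Lit ℕ)

/-- The list of the occurrences of literals. -/
def lits (φ : Fm) : List (Bool × ℕ) := φ.flatMap (fun c => [c.1, c.2.1, c.2.2])

/-- The number of occurrences. -/
def kk (φ : Fm) : ℕ := (lits φ).length

/-- The variable of an occurrence. -/
def wv (φ : Fm) (i : ℕ) : ℕ := ((lits φ).getD i (true, 0)).2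

/-- The sign of an occurrence. -/
def wp (φ : Fm) (i : ℕ) : Bool := ((lits φ).getD i (true, 0)).1

/-- The next occurrence of the same variable (in cyclic order). -/
def nxt (φ : Fm) (i : ℕ) : ℕ :=
  (((List.range (kk φ)).filter (fun j => decide (i < j) && decide (wv φ j = wv φ i))).head?).getD
    ((((List.range (kk φ)).filter (fun j => decide (wv φ j = wv φ i))).head?).getD 0)

/-- The edges of the gadget of an occurrence. -/
def wireEdges (φ : Fm) (i : ℕ) : List (ℕ × ℕ) :=
  [(9 * i, 9 * i + 1), (9 * i + 1, 9 * i + 2), (9 * i + 1, 9 * i + 3),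
    (9 * i + 3, 9 * nxt φ i + 2), (9 * i + 4, 9 * i + 5)] ++
  (List.range 3).flatMap (fun b =>
    (if b < 2 ∨ wp φ i = true then [(9 * i + 2, 9 * (3 * (i / 3) + b) + 4)] else []) ++
    (if b < 2 ∨ wp φ i = false then
      [(9 * i + 2, 9 * i + 6 + b), (9 * i + 6 + b, 9 * (3 * (i / 3) + b) + 4)] else []))

/-- The edges of the instance. -/
def edges (φ : Fm) : List (ℕ × ℕ) := (List.range (kk φ)).flatMap (fun i => wireEdges φ i)

/-- The instance of ODD-PATHS made from a formula. -/
def red (φ : Fm) : Inst :=
  (List.range (9 * kk φ), edges φ, kk φ, (List.range (kk φ)).map (fun i => 9 * i),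
    (List.range (kk φ)).map (fun i => 9 * i + 5))

theorem kk_eq (φ : Fm) : kk φ = 3 * φ.length := by
  unfold kk lits
  induction φ with
  | nil => rfl
  | cons c φ ih =>
    rw [List.flatMap_cons, List.length_append, ih]
    simp
    omega

theorem lits_getD (φ : Fm) : ∀ c < φ.length, ∀ d,
    (lits φ).getD (3 * c) (true, 0) = (φ.getD c d).1 ∧
    (lits φ).getD (3 * c + 1) (true, 0) = (φ.getD c d).2.1 ∧
    (lits φ).getD (3 * c + 2) (true, 0) = (φ.getD c d).2.2 := by
  induction φ with
  | nil => intro c hc; simp at hc
  | cons a φ ih =>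
    intro c hc d
    have e : lits (a :: φ) = a.1 :: a.2.1 :: a.2.2 :: lits φ := by simp [lits]
    cases c with
    | zero => simp [e]
    | succ c =>
      have h := ih c (by simpa using hc) d
      have e1 : 3 * (c + 1) = 3 * c + 3 := by ring
      have e2 : 3 * (c + 1) + 1 = 3 * c + 1 + 3 := by ring
      have e3 : 3 * (c + 1) + 2 = 3 * c + 2 + 3 := by ring
      rw [e1, show 3 * c + 3 + 1 = 3 * c + 1 + 3 by ring, show 3 * c + 3 + 2 = 3 * c + 2 + 3 by ring, e]
      simpa using h

/-! ### Properties of `nxt` -/

section Nxt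

variable (φ : Fm)

theorem nxt_cases {i : ℕ} (hi : i < kk φ) :
    (i < nxt φ i ∧ nxt φ i < kk φ ∧ wv φ (nxt φ i) = wv φ i ∧
      ∀ j, i < j → j < kk φ → wv φ j = wv φ i → nxt φ i ≤ j) ∨
    (nxt φ i < kk φ ∧ wv φ (nxt φ i) = wv φ i ∧ (∀ j < kk φ, wv φ j = wv φ i → j ≤ i) ∧
      (∀ j < kk φ, wv φ j = wv φ i → nxt φ i ≤ j)) := by
  have key : ∀ (q : ℕ → Bool) (n : ℕ), match ((List.range n).filter q).head? with
      | none => ∀ j < n, q j = false
      | some m => m < n ∧ q m = true ∧ ∀ j < n, q j = true → m ≤ j := by
    intro q n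
    induction n with
    | zero => simp
    | succ n ih =>
      rw [List.range_succ, List.filter_append]
      cases h : ((List.range n).filter q).head? with
      | none =>
        rw [h] at ih
        have h0 : (List.range n).filter q = [] := List.head?_eq_none_iff.1 h
        rw [h0, List.nil_append]
        by_cases hq : q n = true
        · simp only [List.filter_cons, hq, if_true, List.filter_nil, List.head?_cons]
          refine ⟨by omega, trivial, fun j hj hqj => ?_⟩
          by_contra hlt
          have := ih j (by omega)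
          rw [this] at hqj
          exact absurd hqj (by simp)
        · have hq' : q n = false := by simpa using hq
          simp only [List.filter_cons, hq', List.filter_nil]
          intro j hj
          rcases Nat.lt_succ_iff_lt_or_eq.1 hj with h1 | h1
          · exact ih j h1
          · rw [h1]; exact hq'
      | some m =>
        rw [h] at ih
        rw [List.head?_append, h]
        simp only [Option.some_or]
        refine ⟨by omega, ih.2.1, fun j hj hqj => ?_⟩
        rcases Nat.lt_succ_iff_lt_or_eq.1 hj with h1 | h1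
        · exact ih.2.2 j h1 hqj
        · omega
  have k1 := key (fun j => decide (i < j) && decide (wv φ j = wv φ i)) (kk φ)
  have k2 := key (fun j => decide (wv φ j = wv φ i)) (kk φ)
  unfold nxt
  cases h1 : ((List.range (kk φ)).filter
      (fun j => decide (i < j) && decide (wv φ j = wv φ i))).head? with
  | some m =>
    left
    rw [h1] at k1
    simp only [Option.getD_some, Bool.and_eq_true, decide_eq_true_eq] at k1 ⊢
    exact ⟨k1.2.1.1, k1.1, k1.2.1.2, fun j h2 h3 h4 => k1.2.2 j h3 ⟨h2, h4⟩⟩
  | none =>
    right
    rw [h1] at k1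
    simp only [Bool.and_eq_false_iff, decide_eq_false_iff_not, Option.getD_none] at k1 ⊢
    cases h2 : ((List.range (kk φ)).filter (fun j => decide (wv φ j = wv φ i))).head? with
    | none =>
      exfalso
      rw [h2] at k2
      have := k2 i hi
      simp at this
    | some m =>
      rw [h2] at k2
      simp only [Option.getD_some, decide_eq_true_eq] at k2 ⊢
      refine ⟨k2.1, k2.2.1, fun j hj hv => ?_, fun j hj hv => k2.2.2 j hj hv⟩
      rcases k1 j hj with h3 | h3
      · omega
      · exact absurd hv h3

theorem nxt_lt {i : ℕ} (hi : i < kk φ) : nxt φ i < kk φ := by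
  rcases nxt_cases φ hi with h | h
  · exact h.2.1
  · exact h.1

theorem wv_nxt {i : ℕ} (hi : i < kk φ) : wv φ (nxt φ i) = wv φ i := by
  rcases nxt_cases φ hi with h | h
  · exact h.2.2.1
  · exact h.2.1

theorem nxt_inj {i j : ℕ} (hi : i < kk φ) (hj : j < kk φ) (h : nxt φ i = nxt φ j) : i = j := by
  have hv : wv φ i = wv φ j := by rw [← wv_nxt φ hi, ← wv_nxt φ hj, h]
  rcases nxt_cases φ hi with h1 | h1 <;> rcases nxt_cases φ hj with h2 | h2
  · rcases lt_trichotomy i j with h3 | h3 | h3
    · have := h1.2.2.2 j h3 hj hv.symm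
      omega
    · exact h3
    · have := h2.2.2.2 i h3 hi hv
      omega
  · have := h2.2.2.2 i hi hv
    omega
  · have := h1.2.2.2 j hj hv.symm
    omega
  · have a1 := h1.2.2.1 j hj hv.symm
    have a2 := h2.2.2.1 i hi hv
    omega

/-- A set of occurrences closed under `nxt` contains with an occurrence all occurrences of the same
variable. -/
theorem closed_class {B : ℕ → Prop} (hB : ∀ i < kk φ, B i → B (nxt φ i)) {i j : ℕ}
    (hi : i < kk φ) (hj : j < kk φ) (hv : wv φ j = wv φ i) (h : B i) : B j := by
  -- up to the greatest occurrence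
  have up : ∀ n i, kk φ - i = n → i < kk φ → B i →
      ∃ m < kk φ, wv φ m = wv φ i ∧ B m ∧ ∀ l < kk φ, wv φ l = wv φ i → l ≤ m := by
    intro n
    induction n using Nat.strong_induction_on with
    | _ n ih =>
      intro i hn hi hb
      rcases nxt_cases φ hi with h1 | h1
      · obtain ⟨m, hm, hm1, hm2, hm3⟩ := ih (kk φ - nxt φ i) (by omega) (nxt φ i) rfl h1.2.1
          (hB i hi hb)
        exact ⟨m, hm, hm1.trans h1.2.2.1, hm2, fun l hl hl' => hm3 l hl (hl'.trans h1.2.2.1.symm)⟩
      · exact ⟨i, hi, rfl, hb, h1.2.2.1⟩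
  obtain ⟨m, hm, hmv, hmB, hmax⟩ := up _ i rfl hi h
  -- the least occurrence
  have hmin : B (nxt φ m) ∧ ∀ l < kk φ, wv φ l = wv φ i → nxt φ m ≤ l := by
    rcases nxt_cases φ hm with h1 | h1
    · have := hmax _ h1.2.1 (h1.2.2.1.trans hmv)
      omega
    · exact ⟨hB m hm hmB, fun l hl hl' => h1.2.2.2 l hl (hl'.trans hmv.symm)⟩
  have down : ∀ l, l < kk φ → wv φ l = wv φ i → B l := by
    intro l
    induction l using Nat.strong_induction_on with
    | _ l ih =>
      intro hl hlv
      by_cases hex : ∃ c < l, wv φ c = wv φ i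
      · -- the greatest occurrence below `l`
        classical
        have hf : ((Finset.range l).filter (fun c => wv φ c = wv φ i)).Nonempty := by
          obtain ⟨c, hc, hc'⟩ := hex
          exact ⟨c, by simp [hc, hc']⟩
        obtain ⟨c, hc, hcm⟩ := Finset.exists_max_image _ (fun c => c) hf
        rw [Finset.mem_filter, Finset.mem_range] at hc
        have hcB := ih c hc.1 (by omega) hc.2
        have hck : c < kk φ := by omega
        rcases nxt_cases φ hck with h1 | h1
        · have h2 := h1.2.2.2 l hc.1 hl (hlv.trans hc.2.symm)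
          have h3 : nxt φ c = l := by
            by_contra hne
            have := hcm (nxt φ c) (by
              rw [Finset.mem_filter, Finset.mem_range]
              exact ⟨by omega, h1.2.2.1.trans hc.2⟩)
            omega
          rw [← h3]
          exact hB c hck hcB
        · have := h1.2.2.1 l hl (hlv.trans hc.2.symm)
          omega
      · push Not at hex
        have h1 := hmin.2 l hl hlv
        have h2 : nxt φ m = l := by
          by_contra hne
          have hlt : nxt φ m < l := by omega
          exact hex _ hlt ((wv_nxt φ hm).trans hmv)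
        rw [← h2]
        exact hmin.1
  exact down j hj hv

end Nxt

end Pool.Agent.H442R3.Odd
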