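import Pool.Agent.H442R3.Odd.Mem
import Pool.Agent.H673R2.HardOn

/-!
# The disjoint odd paths problem: hardness for simple graphs
-/

namespace Pool.Agent.H442R3.Odd

open Pool.Agent.NPC

/-- The graph has no loops and no parallel edges, and the sets `X` and `Y` are disjoint. -/
def SimpleDisjoint (I : Inst) : Prop :=
  (I.2.1.Nodup ∧ ∀ e ∈ I.2.1, e.1 ≠ e.2 ∧ (e.2, e.1) ∉ I.2.1) ∧ ∀ x ∈ I.2.2.2.1, x ∉ I.2.2.2.2

theorem simple_red (φ : Fm) : SimpleDisjoint (red φ) := by
  refine ⟨⟨?_, ?_⟩, ?_⟩
  · change (edges φ).Nodup
    unfold edges
    rw [List.nodup_flatMap]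
    constructor
    · intro i hi
      unfold wireEdges
      have h3 : List.range 3 = [0, 1, 2] := rfl
      rw [h3]
      cases h : wp φ i
      · simp [h]
        omega
      · simp [h]
        omega
    · rw [List.pairwise_iff_getElem]
      intro a b ha hb hab
      simp only [List.getElem_range, Function.onFun]
      have key : ∀ i, ∀ e ∈ wireEdges φ i, 9 * i ≤ e.1 ∧ e.1 < 9 * i + 9 := by
        intro i e he
        unfold wireEdges at he
        simp only [List.mem_append, List.mem_cons, List.not_mem_nil, or_false, List.mem_flatMap,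
          List.mem_range] at he
        rcases he with (h | h | h | h | h) | ⟨b, hb, h | h⟩
        · rw [h]; simp
        · rw [h]; simp
        · rw [h]; simp
        · rw [h]; simp
        · rw [h]; simp
        · split_ifs at h
          · simp only [List.mem_cons, List.not_mem_nil, or_false] at h
            rw [h]; simp
          · simp at h
        · split_ifs at h
          · simp only [List.mem_cons, List.not_mem_nil, or_false] at h
            rcases h with h | h
            · rw [h]; simp
            · rw [h]
              constructor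
              · simp only; omega
              · simp only; omega
          · simp at h
      intro e he he'
      have h1 := key a e he
      have h2 := key b e he'
      omega
  · rintro ⟨u, v⟩ he
    change (u, v) ∈ edges φ at he
    change u ≠ v ∧ (v, u) ∉ edges φ
    rw [mem_edges] at he ⊢
    obtain ⟨i, hi, h⟩ := he
    constructor
    · rcases h with h | h | h | h | h | ⟨b, hb, h | ⟨_, h | h⟩⟩ <;> omega
    · rintro ⟨j, hj, h'⟩
      rcases h with h | h | h | h | h | ⟨b, hb, h | ⟨_, h | h⟩⟩ <;>
        rcases h' with h' | h' | h' | h' | h' | ⟨b', hb', h' | ⟨_, h' | h'⟩⟩ <;> omega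
  · intro x hx hx'
    change x ∈ List.map (fun i => 9 * i) (List.range (kk φ)) at hx
    change x ∈ List.map (fun i => 9 * i + 5) (List.range (kk φ)) at hx'
    obtain ⟨a, -, ha⟩ := List.mem_map.1 hx
    obtain ⟨b, -, hb⟩ := List.mem_map.1 hx'
    omega

/-- ODD-PATHS is `NP`-hard, even for simple graphs and disjoint sets `X`, `Y`. -/
theorem npHardOn_oddPaths :
    H673R2.NPHardOn (fun I : Inst => Valid I ∧ SimpleDisjoint I) OddPaths :=
  H673R2.npHardOn_of hardPr_SAT3b poly_red
    (fun _ h => ⟨valid_red h.2.2, simple_red _⟩) (fun _ h => red_correct h.2.2)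

end Pool.Agent.H442R3.Odd
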