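import Pool.Agent.H442R3.Odd.Red

/-!
# The disjoint odd paths problem: soundness of the reduction
-/

namespace Pool.Agent.H442R3.Odd

open Pool.Agent.NPC

variable {φ : Fm}

theorem mem_edges {u v : ℕ} : (u, v) ∈ edges φ ↔ ∃ i < kk φ,
    (u = 9 * i ∧ v = 9 * i + 1) ∨ (u = 9 * i + 1 ∧ v = 9 * i + 2) ∨
    (u = 9 * i + 1 ∧ v = 9 * i + 3) ∨ (u = 9 * i + 3 ∧ v = 9 * nxt φ i + 2) ∨
    (u = 9 * i + 4 ∧ v = 9 * i + 5) ∨
    ∃ b < 3, ((b < 2 ∨ wp φ i = true) ∧ u = 9 * i + 2 ∧ v = 9 * (3 * (i / 3) + b) + 4) ∨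
      ((b < 2 ∨ wp φ i = false) ∧ ((u = 9 * i + 2 ∧ v = 9 * i + 6 + b) ∨
        (u = 9 * i + 6 + b ∧ v = 9 * (3 * (i / 3) + b) + 4))) := by
  unfold edges wireEdges
  simp only [List.mem_flatMap, List.mem_range, List.mem_append, List.mem_cons, Prod.mk.injEq,
    List.not_mem_nil, or_false]
  refine exists_congr fun i => and_congr_right fun _ => ?_
  have key : ∀ b, ((u, v) ∈ (if b < 2 ∨ wp φ i = true then
      [(9 * i + 2, 9 * (3 * (i / 3) + b) + 4)] else []) ∨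
      (u, v) ∈ (if b < 2 ∨ wp φ i = false then
      [(9 * i + 2, 9 * i + 6 + b), (9 * i + 6 + b, 9 * (3 * (i / 3) + b) + 4)] else [])) ↔
      (((b < 2 ∨ wp φ i = true) ∧ u = 9 * i + 2 ∧ v = 9 * (3 * (i / 3) + b) + 4) ∨
      ((b < 2 ∨ wp φ i = false) ∧ ((u = 9 * i + 2 ∧ v = 9 * i + 6 + b) ∨
        (u = 9 * i + 6 + b ∧ v = 9 * (3 * (i / 3) + b) + 4)))) := by
    intro b
    by_cases h1 : b < 2 ∨ wp φ i = true <;> by_cases h2 : b < 2 ∨ wp φ i = false <;>
      simp [h1, h2]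
  simp only [key]
  simp only [or_assoc]

/-- Adjacency in the graph of the instance. -/
def Adj (φ : Fm) (u v : ℕ) : Prop := (u, v) ∈ edges φ ∨ (v, u) ∈ edges φ

theorem step_x {i v : ℕ} (h : Adj φ (9 * i) v) : v = 9 * i + 1 ∧ i < kk φ := by
  rcases h with h | h <;> rw [mem_edges] at h <;> obtain ⟨j, hj, h⟩ := h <;>
    rcases h with h | h | h | h | h | ⟨b, hb, h | ⟨_, h | h⟩⟩ <;> omega

theorem step_s {i v : ℕ} (h : Adj φ (9 * i + 1) v) : v = 9 * i ∨ v = 9 * i + 2 ∨ v = 9 * i + 3 := by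
  rcases h with h | h <;> rw [mem_edges] at h <;> obtain ⟨j, hj, h⟩ := h <;>
    rcases h with h | h | h | h | h | ⟨b, hb, h | ⟨_, h | h⟩⟩ <;> omega

theorem step_u {i v : ℕ} (h : Adj φ (9 * i + 3) v) :
    (v = 9 * i + 1 ∨ v = 9 * nxt φ i + 2) ∧ i < kk φ := by
  rcases h with h | h <;> rw [mem_edges] at h <;> obtain ⟨j, hj, h⟩ := h <;>
    rcases h with h | h | h | h | h | ⟨b, hb, h | ⟨_, h | h⟩⟩
  all_goals first
    | omega
    | (have e : j = i := by omega
       subst e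
       omega)

theorem step_l {i v : ℕ} (h : Adj φ (9 * i + 2) v) :
    v = 9 * i + 1 ∨ (∃ j < kk φ, v = 9 * j + 3 ∧ nxt φ j = i) ∨
    (∃ b < 3, v = 9 * (3 * (i / 3) + b) + 4 ∧ (b < 2 ∨ wp φ i = true) ∧ i < kk φ) ∨
    (∃ b < 3, v = 9 * i + 6 + b ∧ (b < 2 ∨ wp φ i = false) ∧ i < kk φ) := by
  rcases h with h | h <;> rw [mem_edges] at h <;> obtain ⟨j, hj, h⟩ := h <;>
    rcases h with h | h | h | h | h | ⟨b, hb, h | ⟨hw, h | h⟩⟩
  all_goals try omega
  · have e : j = i := by omega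
    subst e
    exact Or.inr (Or.inr (Or.inl ⟨b, hb, h.2.2, h.1, hj⟩))
  · have e : j = i := by omega
    subst e
    exact Or.inr (Or.inr (Or.inr ⟨b, hb, h.2, hw, hj⟩))
  · exact Or.inr (Or.inl ⟨j, hj, h.1, by omega⟩)

theorem step_w {i b v : ℕ} (hb : b < 3) (h : Adj φ (9 * i + 6 + b) v) :
    v = 9 * i + 2 ∨ v = 9 * (3 * (i / 3) + b) + 4 := by
  rcases h with h | h <;> rw [mem_edges] at h <;> obtain ⟨j, hj, h⟩ := h <;>
    rcases h with h | h | h | h | h | ⟨b', hb', h | ⟨hw, h | h⟩⟩ <;> omega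

theorem step_t {q v : ℕ} (h : Adj φ (9 * q + 4) v) :
    v = 9 * q + 5 ∨ (∃ i < kk φ, v = 9 * i + 2) ∨
    (∃ i < kk φ, ∃ b < 3, v = 9 * i + 6 + b ∧ q = 3 * (i / 3) + b) := by
  rcases h with h | h <;> rw [mem_edges] at h <;> obtain ⟨j, hj, h⟩ := h <;>
    rcases h with h | h | h | h | h | ⟨b', hb', h | ⟨hw, h | h⟩⟩
  all_goals try omega
  · exact Or.inr (Or.inl ⟨j, hj, h.2.1⟩)
  · exact Or.inr (Or.inr ⟨j, hj, b', hb', h.1, by omega⟩)

/-! ### Generalities on paths -/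

theorem adj_of_joins {e u v : ℕ} (h : Joins (edges φ) e u v) : Adj φ u v := by
  rcases h with h | h
  · exact Or.inl (List.mem_of_getElem? h)
  · exact Or.inr (List.mem_of_getElem? h)

theorem chain_of_path {p : List ℕ × List ℕ} (h : IsPath (edges φ) p) :
    List.IsChain (Adj φ) p.1 := by
  rw [List.isChain_iff_getElem]
  intro i hi
  have h1 := h.1
  have h2 := h.2.2 i (by omega)
  have e1 : p.1.getD i 0 = p.1[i] := by
    rw [List.getD_eq_getElem?_getD, List.getElem?_eq_getElem (by omega), Option.getD_some]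
  have e2 : p.1.getD (i + 1) 0 = p.1[i + 1] := by
    rw [List.getD_eq_getElem?_getD, List.getElem?_eq_getElem (by omega), Option.getD_some]
  rw [e1, e2] at h2
  exact adj_of_joins h2

theorem mem_of_mem_inner {p : List ℕ × List ℕ} {v : ℕ} (h : v ∈ inner p) : v ∈ p.1 :=
  List.mem_of_mem_tail (List.mem_of_mem_dropLast h)

theorem mem_inner_of {p : List ℕ × List ℕ} {v : ℕ} (h : v ∈ p.1) (h1 : p.1.head? ≠ some v)
    (h2 : p.1.getLast? ≠ some v) : v ∈ inner p := by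
  unfold inner
  obtain ⟨l, es⟩ := p
  simp only at h h1 h2 ⊢
  cases l with
  | nil => simp at h
  | cons a l =>
    simp only [List.tail_cons]
    have hv : v ≠ a := fun e => h1 (by simp [e])
    have hl : v ∈ l := by
      rcases List.mem_cons.1 h with h | h
      · exact absurd h hv
      · exact h
    have hne : l ≠ [] := List.ne_nil_of_mem hl
    have h3 : v ≠ l.getLast hne := by
      intro e
      apply h2
      rw [List.getLast?_cons_of_ne_nil hne, List.getLast?_eq_getLast_of_ne_nil hne, e]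
    have h4 := List.dropLast_append_getLast hne
    rw [← h4, List.mem_append, List.mem_singleton] at hl
    rcases hl with hl | hl
    · exact hl
    · exact absurd hl h3

end Pool.Agent.H442R3.Odd
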