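import Pool.Agent.H442R3.Odd.Sound

/-!
# The disjoint odd paths problem: soundness of the reduction, continued
-/

namespace Pool.Agent.H442R3.Odd

open Pool.Agent.NPC

variable {φ : Fm}

/-- The vertices of a path up to the second layer. -/
def pre (φ : Fm) (a : ℕ) (β : Bool) : List ℕ :=
  9 * a :: (9 * a + 1) :: ((if β = true then [9 * a + 3] else []) ++
    [9 * (if β = true then nxt φ a else a) + 2])

/-- The vertices of a path after the second layer up to the third one. -/
def mid (f b : ℕ) (γ : Bool) : List ℕ :=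
  (if γ = true then [9 * f + 6 + b] else []) ++ [9 * (3 * (f / 3) + b) + 4]

theorem stage1 {vs : List ℕ} (hc : List.IsChain (Adj φ) vs) (hnd : vs.Nodup) {a y : ℕ}
    (hx : vs.head? = some (9 * a)) (hy : vs.getLast? = some (9 * y + 5)) :
    ∃ (β : Bool) (rest : List ℕ), a < kk φ ∧ vs = pre φ a β ++ rest ∧ rest ≠ [] := by
  rcases vs with _ | ⟨v0, vs⟩
  · simp at hx
  simp only [List.head?_cons, Option.some.injEq] at hx
  subst hx
  rcases vs with _ | ⟨v1, vs⟩
  · simp at hy; omega
  rw [List.isChain_cons_cons] at hc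
  obtain ⟨rfl, ha⟩ := step_x hc.1
  rcases vs with _ | ⟨v2, vs⟩
  · simp at hy; omega
  obtain ⟨-, hc⟩ := hc
  rw [List.isChain_cons_cons] at hc
  rcases step_s hc.1 with rfl | rfl | rfl
  · simp at hnd
  · rcases vs with _ | ⟨v3, vs⟩
    · simp at hy; omega
    · exact ⟨false, v3 :: vs, ha, by simp [pre], by simp⟩
  · rcases vs with _ | ⟨v3, vs⟩
    · simp at hy; omega
    obtain ⟨-, hc⟩ := hc
    rw [List.isChain_cons_cons] at hc
    rcases (step_u hc.1).1 with rfl | rfl
    · simp at hnd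
    rcases vs with _ | ⟨v4, vs⟩
    · simp at hy; omega
    · exact ⟨true, v4 :: vs, ha, by simp [pre], by simp⟩

theorem stage2 {f y : ℕ} {rest : List ℕ} (hc : List.IsChain (Adj φ) ((9 * f + 2) :: rest))
    (hnd : ((9 * f + 2) :: rest).Nodup) (hne : rest ≠ [])
    (hy : rest.getLast? = some (9 * y + 5)) (hf : f < kk φ)
    (hno : ∀ i < kk φ, 9 * i + 1 ∉ rest) :
    ∃ (b : ℕ) (γ : Bool) (rest' : List ℕ), b < 3 ∧ (b < 2 ∨ wp φ f = !γ) ∧
      rest = mid f b γ ++ rest' ∧ rest' ≠ [] := by
  rcases rest with _ | ⟨v, rest⟩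
  · simp at hne
  rw [List.isChain_cons_cons] at hc
  obtain ⟨h, hc⟩ := hc
  rcases step_l h with rfl | ⟨j, hj, rfl, hjf⟩ | ⟨b, hb, rfl, hw, -⟩ | ⟨b, hb, rfl, hw, -⟩
  · exact absurd (List.mem_cons_self) (hno f hf)
  · exfalso
    rcases rest with _ | ⟨v', rest⟩
    · simp at hy; omega
    rw [List.isChain_cons_cons] at hc
    rcases (step_u hc.1).1 with rfl | rfl
    · exact hno j hj (by simp)
    · rw [hjf] at hnd
      simp at hnd
  · rcases rest with _ | ⟨v', rest⟩
    · simp at hy; omega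
    exact ⟨b, false, v' :: rest, hb, by simpa using hw, by simp [mid], by simp⟩
  · rcases rest with _ | ⟨v', rest⟩
    · simp at hy; omega
    rw [List.isChain_cons_cons] at hc
    rcases step_w hb hc.1 with rfl | rfl
    · simp at hnd
    rcases rest with _ | ⟨v'', rest⟩
    · simp at hy; omega
    exact ⟨b, true, v'' :: rest, hb, by simpa using hw, by simp [mid], by simp⟩

theorem stage3 {q y : ℕ} {rest : List ℕ} (hc : List.IsChain (Adj φ) ((9 * q + 4) :: rest))
    (hnd : ((9 * q + 4) :: rest).Nodup) (hne : rest ≠ [])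
    (hy : rest.getLast? = some (9 * y + 5))
    (hno : ∀ i < kk φ, 9 * i + 2 ∉ rest) (hin : ∀ v ∈ rest.dropLast, ∀ i < kk φ, v ≠ 9 * i + 5)
    (hq : q < kk φ) : rest = [9 * q + 5] := by
  rcases rest with _ | ⟨v, rest⟩
  · simp at hne
  rw [List.isChain_cons_cons] at hc
  obtain ⟨h, hc⟩ := hc
  rcases step_t h with rfl | ⟨i, hi, rfl⟩ | ⟨i, hi, b, hb, rfl, hqb⟩
  · rcases rest with _ | ⟨v', rest⟩
    · rfl
    · exact absurd rfl (hin (9 * q + 5) (by simp) q hq)
  · exact absurd (List.mem_cons_self) (hno i hi)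
  · exfalso
    rcases rest with _ | ⟨v', rest⟩
    · simp at hy; omega
    rw [List.isChain_cons_cons] at hc
    rcases step_w hb hc.1 with rfl | rfl
    · exact hno i hi (by simp)
    · rw [hqb] at hnd
      simp at hnd

/-- An injective function of the numbers below `n` to themselves is onto. -/
theorem surj_of_inj {n : ℕ} (g : Fin n → ℕ) (hg : ∀ i, g i < n)
    (hinj : ∀ i j, g i = g j → i = j) (m : ℕ) (hm : m < n) : ∃ i, g i = m := by
  have h : Function.Injective (fun i => (⟨g i, hg i⟩ : Fin n)) := fun i j hij =>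
    hinj i j (by simpa using hij)
  obtain ⟨i, hi⟩ := (Finite.injective_iff_surjective.1 h) ⟨m, hm⟩
  exact ⟨i, by simpa using hi⟩

/-- The form of the paths in a solution. -/
theorem solution_form {n : ℕ} (hn : n = kk φ) {P : Fin n → List ℕ × List ℕ}
    (hP : ∀ j, IsXYPath (edges φ) ((List.range (kk φ)).map (fun i => 9 * i))
      ((List.range (kk φ)).map (fun i => 9 * i + 5)) (P j))
    (hdis : ∀ i j, i ≠ j → ∀ v ∈ inner (P i), v ∉ inner (P j)) (hk : kk φ = 3 * φ.length) :
    ∃ (a : Fin n → ℕ) (β : Fin n → Bool) (b : Fin n → ℕ) (γ : Fin n → Bool),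
      (∀ j, a j < kk φ) ∧ (∀ i j, a i = a j → i = j) ∧
      (∀ i j, (if β i = true then nxt φ (a i) else a i) =
        (if β j = true then nxt φ (a j) else a j) → i = j) ∧
      (∀ j, b j < 3) ∧
      (∀ j, b j < 2 ∨ wp φ (if β j = true then nxt φ (a j) else a j) = !(γ j)) ∧
      (∀ i j, 3 * ((if β i = true then nxt φ (a i) else a i) / 3) + b i =
        3 * ((if β j = true then nxt φ (a j) else a j) / 3) + b j → i = j) ∧
      ∀ j, (P j).1.length = 5 + (β j).toNat + (γ j).toNat := by
  have hch := fun j => chain_of_path (hP j).1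
  have hnd := fun j => (hP j).1.2.1
  -- heads and last vertices
  have hhead : ∀ j, ∃ a, a < kk φ ∧ (P j).1.head? = some (9 * a) := by
    intro j
    obtain ⟨x, hx, hx'⟩ := (hP j).2.1
    simp only [List.mem_map, List.mem_range] at hx
    obtain ⟨a, ha, rfl⟩ := hx
    exact ⟨a, ha, hx'⟩
  have hlast : ∀ j, ∃ y, y < kk φ ∧ (P j).1.getLast? = some (9 * y + 5) := by
    intro j
    obtain ⟨x, hx, hx'⟩ := (hP j).2.2.1
    simp only [List.mem_map, List.mem_range] at hx
    obtain ⟨a, ha, rfl⟩ := hx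
    exact ⟨a, ha, hx'⟩
  choose a ha hhead using hhead
  choose y hy hlast using hlast
  have hinn : ∀ j v, v ∈ (P j).1 → v % 9 ≠ 0 → v % 9 ≠ 5 → v ∈ inner (P j) := by
    intro j v hv h0 h5
    apply mem_inner_of hv
    · rw [hhead j]; intro e; simp only [Option.some.injEq] at e; omega
    · rw [hlast j]; intro e; simp only [Option.some.injEq] at e; omega
  have h1 := fun j => stage1 (hch j) (hnd j) (hhead j) (hlast j)
  choose β rest ha' hvs hrest using h1
  set f : Fin n → ℕ := fun j => if β j = true then nxt φ (a j) else a j with hf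
  have hfk : ∀ j, f j < kk φ := by
    intro j
    simp only [hf]
    split_ifs
    · exact nxt_lt φ (ha j)
    · exact ha j
  -- uniqueness
  have huniq : ∀ i j v, v ∈ (P i).1 → v ∈ (P j).1 → v % 9 ≠ 0 → v % 9 ≠ 5 → i = j := by
    intro i j v h1 h2 h3 h4
    by_contra hne
    exact hdis i j hne v (hinn i v h1 h3 h4) (hinn j v h2 h3 h4)
  have ha1 : ∀ j, 9 * a j + 1 ∈ (P j).1 := by
    intro j; rw [hvs j]; simp [pre]
  have hf1 : ∀ j, 9 * f j + 2 ∈ (P j).1 := by
    intro j; rw [hvs j]; simp [pre, hf]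
  have hainj : ∀ i j, a i = a j → i = j := by
    intro i j h
    refine huniq i j (9 * a i + 1) (ha1 i) ?_ (by omega) (by omega)
    rw [h]; exact ha1 j
  have hfinj : ∀ i j, f i = f j → i = j := by
    intro i j h
    refine huniq i j (9 * f i + 2) (hf1 i) ?_ (by omega) (by omega)
    rw [h]; exact hf1 j
  have hasurj : ∀ m < kk φ, ∃ j, a j = m := by
    intro m hm
    exact surj_of_inj a (fun j => by rw [hn]; exact ha j) hainj m (by rw [hn]; exact hm)
  have hfsurj : ∀ m < kk φ, ∃ j, f j = m := by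
    intro m hm
    exact surj_of_inj f (fun j => by rw [hn]; exact hfk j) hfinj m (by rw [hn]; exact hm)
  -- the tail from the second layer on
  have htail : ∀ j, ∃ pr, (P j).1 = pr ++ (9 * f j + 2) :: rest j ∧ 9 * a j + 1 ∈ pr := by
    intro j
    refine ⟨9 * a j :: (9 * a j + 1) :: (if β j = true then [9 * a j + 3] else []), ?_, by simp⟩
    rw [hvs j]
    simp [pre, hf]
  have hno1 : ∀ j, ∀ i < kk φ, 9 * i + 1 ∉ rest j := by
    intro j i hi hmem
    obtain ⟨j', hj'⟩ := hasurj i hi
    obtain ⟨pr, hpr, hpr'⟩ := htail j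
    have h2 : j = j' := by
      refine huniq j j' (9 * i + 1) ?_ ?_ (by omega) (by omega)
      · rw [hpr]; simp [hmem]
      · rw [← hj']; exact ha1 j'
    subst h2
    have h3 := hnd j
    rw [hpr, List.nodup_append] at h3
    exact h3.2.2 _ hpr' (9 * i + 1) (by simp [hmem]) (by rw [hj'])
  have h2 : ∀ j, ∃ (b : ℕ) (γ : Bool) (rest' : List ℕ), b < 3 ∧ (b < 2 ∨ wp φ (f j) = !γ) ∧
      rest j = mid (f j) b γ ++ rest' ∧ rest' ≠ [] := by
    intro j
    obtain ⟨pr, hpr, hpr'⟩ := htail j
    have hcj := hch j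
    have hnj := hnd j
    have hlj := hlast j
    rw [hpr] at hcj hnj hlj
    refine stage2 (y := y j) hcj.right_of_append (List.nodup_append.1 hnj).2.1 (hrest j) ?_ (hfk j)
      (hno1 j)
    rw [List.getLast?_append_of_ne_nil _ (by simp),
      List.getLast?_cons_of_ne_nil (hrest j)] at hlj
    exact hlj
  choose b γ rest' hb hw hr hrest' using h2
  set q : Fin n → ℕ := fun j => 3 * (f j / 3) + b j with hq
  have hqk : ∀ j, q j < kk φ := by
    intro j
    have h3 := hfk j
    have h4 := hb j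
    simp only [hq]
    omega
  have hq1 : ∀ j, 9 * q j + 4 ∈ (P j).1 := by
    intro j; rw [hvs j, hr j]; simp [mid, hq]
  have hqinj : ∀ i j, q i = q j → i = j := by
    intro i j h
    refine huniq i j (9 * q i + 4) (hq1 i) ?_ (by omega) (by omega)
    rw [h]; exact hq1 j
  have htail2 : ∀ j, ∃ pr, (P j).1 = pr ++ (9 * q j + 4) :: rest' j ∧ 9 * f j + 2 ∈ pr := by
    intro j
    obtain ⟨pr, hpr, hpr'⟩ := htail j
    refine ⟨pr ++ (9 * f j + 2) :: (if γ j = true then [9 * f j + 6 + b j] else []), ?_, by simp⟩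
    rw [hpr, hr j]
    simp [mid, hq]
  have hno2 : ∀ j, ∀ i < kk φ, 9 * i + 2 ∉ rest' j := by
    intro j i hi hmem
    obtain ⟨j', hj'⟩ := hfsurj i hi
    obtain ⟨pr, hpr, hpr'⟩ := htail2 j
    have h2 : j = j' := by
      refine huniq j j' (9 * i + 2) ?_ ?_ (by omega) (by omega)
      · rw [hpr]; simp [hmem]
      · rw [← hj']; exact hf1 j'
    subst h2
    have h3 := hnd j
    rw [hpr, List.nodup_append] at h3
    exact h3.2.2 _ hpr' (9 * i + 2) (by simp [hmem]) (by rw [hj'])
  have h3 : ∀ j, rest' j = [9 * q j + 5] := by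
    intro j
    obtain ⟨pr, hpr, hpr'⟩ := htail2 j
    have hcj := hch j
    have hnj := hnd j
    have hlj := hlast j
    have hij := (hP j).2.2.2
    rw [hpr] at hcj hnj hlj
    refine stage3 (y := y j) hcj.right_of_append (List.nodup_append.1 hnj).2.1 (hrest' j) ?_
      (hno2 j) ?_ (hqk j)
    · rw [List.getLast?_append_of_ne_nil _ (by simp),
        List.getLast?_cons_of_ne_nil (hrest' j)] at hlj
      exact hlj
    · intro v hv i hi e
      subst e
      refine (hij (9 * i + 5) ?_).2 ?_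
      · unfold inner
        have hpne : pr ≠ [] := List.ne_nil_of_mem hpr'
        rcases pr with _ | ⟨c, pr⟩
        · exact absurd rfl hpne
        rw [hpr, List.cons_append, List.tail_cons, List.dropLast_append_of_ne_nil (by simp),
          List.dropLast_cons_of_ne_nil (hrest' j)]
        simp [hv]
      · simp only [List.mem_map, List.mem_range]
        exact ⟨i, hi, rfl⟩
  refine ⟨a, β, b, γ, ha, hainj, hfinj, hb, hw, hqinj, fun j => ?_⟩
  rw [hvs j, hr j, h3 j]
  cases β j <;> cases γ j <;> simp [pre, mid]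

end Pool.Agent.H442R3.Odd
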