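import Pool.Agent.H442R3.Odd.Sound2

/-!
# The disjoint odd paths problem: soundness of the reduction, end
-/

namespace Pool.Agent.H442R3.Odd

open Pool.Agent.NPC

variable {φ : Fm}

theorem wp_eq (φ : Fm) (i : ℕ) : wp φ i = ((lits φ).getD i (true, 0)).1 := rfl

theorem wv_eq (φ : Fm) (i : ℕ) : wv φ i = ((lits φ).getD i (true, 0)).2 := rfl

theorem sound (h : OddPaths (red φ)) : SAT3 φ := by
  classical
  obtain ⟨-, Ps, hlen, hP, hpw⟩ := h
  change Ps.length = kk φ at hlen
  have hPj : ∀ j : Fin Ps.length, IsXYPath (edges φ) ((List.range (kk φ)).map (fun i => 9 * i))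
      ((List.range (kk φ)).map (fun i => 9 * i + 5)) (Ps.get j) := fun j =>
    (hP _ (List.get_mem Ps j)).1
  have hodd : ∀ j : Fin Ps.length, (Ps.get j).2.length % 2 = 1 := fun j =>
    (hP _ (List.get_mem Ps j)).2
  have hdis : ∀ i j : Fin Ps.length, i ≠ j → ∀ v ∈ inner (Ps.get i), v ∉ inner (Ps.get j) := by
    have h1 : ∀ i j : Fin Ps.length, i < j → ∀ v ∈ inner (Ps.get i), v ∉ inner (Ps.get j) := by
      intro i j hij
      exact (List.pairwise_iff_get.1 hpw i j hij).2
    intro i j hij v hv hv'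
    rcases lt_or_gt_of_ne hij with h2 | h2
    · exact h1 i j h2 v hv hv'
    · exact h1 j i h2 v hv' hv
  obtain ⟨a, β, b, γ, ha, hainj, hfinj, hb, hw, hqinj, hl⟩ :=
    solution_form hlen hPj hdis (kk_eq φ)
  have hγ : ∀ j, γ j = !(β j) := by
    intro j
    have h1 : (Ps.get j).1.length = (Ps.get j).2.length + 1 := (hPj j).1.1
    have h2 := hodd j
    have h3 := hl j
    generalize β j = x at h3
    generalize γ j = y at h3
    cases x <;> cases y <;> simp only [Bool.toNat_true, Bool.toNat_false] at h3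
    · exfalso; omega
    · rfl
    · rfl
    · exfalso; omega
  have hasurj : ∀ m < kk φ, ∃ j, a j = m := fun m hm =>
    surj_of_inj a (fun j => by rw [hlen]; exact ha j) hainj m (by rw [hlen]; exact hm)
  -- the value of an occurrence
  let B : ℕ → Prop := fun i => ∃ j, a j = i ∧ β j = true
  have hBa : ∀ j, B (a j) ↔ β j = true := by
    intro j
    constructor
    · rintro ⟨j', h1, h2⟩
      rw [← hainj _ _ h1]
      exact h2
    · intro h1
      exact ⟨j, rfl, h1⟩
  have hB : ∀ i < kk φ, B i → B (nxt φ i) := by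
    rintro i hi ⟨j, rfl, hj⟩
    obtain ⟨j', hj'⟩ := hasurj (nxt φ (a j)) (nxt_lt φ hi)
    refine ⟨j', hj', ?_⟩
    by_contra hne
    have h1 : β j' = false := by simpa using hne
    have h2 := hfinj j j' (by rw [hj, h1]; simpa using hj'.symm)
    rw [← h2, hj] at h1
    exact absurd h1 (by simp)
  let τ : ℕ → Bool := fun v => decide (∃ i < kk φ, wv φ i = v ∧ B i)
  have hτ : ∀ i < kk φ, τ (wv φ i) = true ↔ B i := by
    intro i hi
    simp only [τ, decide_eq_true_eq]
    constructor
    · rintro ⟨i', hi', hv, hB'⟩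
      exact closed_class φ hB hi' hi hv.symm hB'
    · intro h1
      exact ⟨i, hi, rfl, h1⟩
  have hτa : ∀ j, τ (wv φ (a j)) = β j := by
    intro j
    have h1 := (hτ _ (ha j)).trans (hBa j)
    cases h2 : β j
    · rw [h2] at h1
      simpa using h1
    · rw [h2] at h1
      exact h1.2 rfl
  refine ⟨τ, fun cl hcl => ?_⟩
  obtain ⟨c, hc, hcc⟩ := List.getElem_of_mem hcl
  have hk := kk_eq φ
  obtain ⟨j, hj⟩ := surj_of_inj
    (fun j => 3 * ((if β j = true then nxt φ (a j) else a j) / 3) + b j) (fun j => by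
      have h1 : (if β j = true then nxt φ (a j) else a j) < kk φ := by
        split_ifs
        · exact nxt_lt φ (ha j)
        · exact ha j
      have h2 := hb j
      omega) hqinj (3 * c + 2) (by omega)
  beta_reduce at hj
  set f := (if β j = true then nxt φ (a j) else a j) with hf
  have hbj := hb j
  have hfc : f / 3 = c := by omega
  have hb2 : b j = 2 := by omega
  have hwj : wp φ f = β j := by
    have h1 := hw j
    rw [← hf, hγ j, Bool.not_not] at h1
    rcases h1 with h1 | h1
    · omega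
    · exact h1
  have hfk : f < kk φ := by
    rw [hf]
    split_ifs
    · exact nxt_lt φ (ha j)
    · exact ha j
  have hfv : wv φ f = wv φ (a j) := by
    rw [hf]
    split_ifs
    · exact wv_nxt φ (ha j)
    · rfl
  have hτf : τ (wv φ f) = wp φ f := by
    rw [hfv, hτa, hwj]
  have h3 := lits_getD φ c hc cl
  have h4 : φ.getD c cl = cl := by
    rw [List.getD_eq_getElem?_getD, List.getElem?_eq_getElem hc, Option.getD_some, hcc]
  rw [h4] at h3
  have h5 : f = 3 * c ∨ f = 3 * c + 1 ∨ f = 3 * c + 2 := by omega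
  rw [wv_eq, wp_eq] at hτf
  rcases h5 with h5 | h5 | h5
  · rw [h5, h3.1] at hτf
    exact Or.inl hτf
  · rw [h5, h3.2.1] at hτf
    exact Or.inr (Or.inl hτf)
  · rw [h5, h3.2.2] at hτf
    exact Or.inr (Or.inr hτf)

end Pool.Agent.H442R3.Odd
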